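import Mathlib
import Pool.Agent.X280.CE.NPI

set_option autoImplicit false

/-!
# MP_0be8ec_al, Q1: an abelian group whose endomorphism ring is centrally essential but satisfies
no polynomial identity
-/

namespace Pool.Agent.Results.MP_0be8ec_al.NoPolynomialIdentity

open Pool.Agent.X280.CE Pool.Agent.X280.CE.NPI

/-- A ring is centrally essential if every nonzero element `a` has nonzero central `c`, `d` with
`a c = d`. -/
def CentrallyEssential (Q : Type) [Ring Q] : Prop :=
  ∀ a : Q, a ≠ 0 → ∃ c ∈ Subring.center Q, ∃ d ∈ Subring.center Q, c ≠ 0 ∧ d ≠ 0 ∧ a * c = d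

/-- A ring with polynomial identity: some polynomial `f` with integer coefficients in `n`
non-commuting variables (a finitely supported function on the monomials, which are the lists of
variables) with a coefficient `1` at some monomial `w₀` of maximal degree vanishes on the ring. -/
def IsPI (Q : Type) [Ring Q] : Prop :=
  ∃ (n : ℕ) (f : List (Fin n) →₀ ℤ) (w₀ : List (Fin n)), f w₀ = 1 ∧
    (∀ w ∈ f.support, w.length ≤ w₀.length) ∧
    ∀ r : Fin n → Q, f.sum (fun w c => c • (w.map r).prod) = 0

/-- evaluation at one as a ring homomorphism -/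
noncomputable def evHom : AddMonoid.End data.A →+* EE where
  toFun := data.ev
  map_one' := rfl
  map_mul' := data.ev_mul
  map_zero' := rfl
  map_add' := fun _ _ => rfl

/-- value of a word -/
def wv (k : ℕ) (n : ℕ) (w : List (Fin n)) : T :=
  match w with
  | [] => 1
  | _ :: _ => T.el k (w.length - 1) (w.map Fin.val)

theorem wv_inj (k n : ℕ) : Function.Injective (wv k n) := by
  intro a b h
  have hval : Function.Injective (Fin.val : Fin n → ℕ) := Fin.val_injective
  cases a with
  | nil =>
    cases b with
    | nil => rfl
    | cons x l => exact absurd h (by intro h; cases h)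
  | cons x l =>
    cases b with
    | nil => exact absurd h (by intro h; cases h)
    | cons y m =>
      simp only [wv, T.el.injEq] at h
      exact List.map_injective_iff.2 hval h.2.2

theorem prod_letters (k n : ℕ) (w : List (Fin n)) (hw : w.length < k) :
    (w.map (fun i : Fin n => b (T.el k 0 [(i : ℕ)]))).prod = b (wv k n w) := by
  induction w with
  | nil => rfl
  | cons x l ih =>
    rw [List.map_cons, List.prod_cons, ih (by rw [List.length_cons] at hw; omega), b_mul]
    congr 1
    cases l with
    | nil => rfl
    | cons y m =>
      simp only [wv, T.el_mul, List.length_cons] at hw ⊢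
      rw [if_pos ⟨trivial, by omega⟩]
      simp only [List.map_cons, List.singleton_append]
      congr 1
      omega

theorem not_pi : ¬ IsPI (AddMonoid.End data.A) := by
  rintro ⟨n, f, w0, h1, hdeg, hf⟩
  set k := w0.length + 2 with hk
  have h2 := congrArg evHom (hf (fun i => data.lm (b (T.el k 0 [(i : ℕ)])) (b_mem _)))
  rw [Finsupp.sum, map_sum, map_zero] at h2
  have h3 : ∀ w ∈ f.support, evHom (f w • (w.map (fun i : Fin n =>
      data.lm (b (T.el k 0 [(i : ℕ)])) (b_mem _))).prod) = (f w : ℚ) • b (wv k n w) := by
    intro w hw
    rw [map_zsmul, map_list_prod, List.map_map]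
    have : (evHom ∘ fun i : Fin n => data.lm (b (T.el k 0 [(i : ℕ)])) (b_mem _)) =
        fun i : Fin n => b (T.el k 0 [(i : ℕ)]) := by
      funext i
      exact data.ev_lm (b (T.el k 0 [(i : ℕ)])) (b_mem _)
    rw [this, prod_letters k n w (by have := hdeg w hw; omega), ← Int.cast_smul_eq_zsmul ℚ]
  rw [Finset.sum_congr rfl h3] at h2
  have h4 := congrArg (fun g : EE => g.coeff (wv k n w0)) h2
  change (∑ w ∈ f.support, (f w : ℚ) • b (wv k n w)).coeff (wv k n w0) = 0 at h4
  rw [MonoidAlgebra.coeff_sum, Finsupp.finsetSum_apply, Finset.sum_eq_single w0] at h4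
  · rw [coeff_smul_b, if_pos rfl, h1] at h4
    norm_num at h4
  · intro w _ hw
    rw [coeff_smul_b, if_neg]
    intro h
    exact hw (wv_inj k n h)
  · intro h
    rw [Finsupp.notMem_support_iff] at h
    rw [h] at h1
    exact absurd h1 (by norm_num)

/-- **Result** (positive answer to Q1). There is an abelian group whose endomorphism ring is
centrally essential and is not a ring with polynomial identity. -/
theorem result : ∃ (A : Type) (_ : AddCommGroup A),
    CentrallyEssential (AddMonoid.End A) ∧ ¬ IsPI (AddMonoid.End A) :=
  ⟨data.A, inferInstance, data.centEss strong, not_pi⟩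

end Pool.Agent.Results.MP_0be8ec_al.NoPolynomialIdentity
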